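import Pool.Agent.Helper53.CTG.Goals

/-! # Packet CTG-EE: the numeric step is the abstract step -/

set_option autoImplicit false

namespace Pool.Agent.Helper9.CTG

open Pool.Agent.Helper53.CTG
open Pool.Agent.Helper1.TE (Gad app GoalCT)
open Pool.Agent.Helper65.LinSpace (dig tab ifz eq01 le01 capPow tab_lt dig_lt)

theorem capPow_eq' {q i B : ℕ} (h : q ^ i ≤ B) : capPow q i B = q ^ i := by
  unfold capPow
  exact min_eq_left (by omega)

/-- `al` shifts of a content. -/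
def rs (b W al p : ℕ) (z : ℕ × ℕ) : ℕ × ℕ :=
  (shN (cC b W) (4 * b) (36 * b) (Rb b) al p z.1, z.2)

theorem shN_lt (b W al p X : ℕ) (hR : 1 ≤ Rb b) :
    shN (cC b W) (4 * b) (36 * b) (Rb b) al p X < Pb b ^ (4 * b + 2) := by
  unfold shN
  exact tab_lt fun i _ => Nat.mod_lt _ (by omega)

theorem shl_rs (hS : GoalSHN) (b W al p : ℕ) (z : ℕ × ℕ) (hR : 1 ≤ Rb b)
    (hz : z.1 < Pb b ^ (4 * b + 2)) :
    shl (gadC b W) (List.replicate al p) z = rs b W al p z :=
  hS (cC b W) (4 * b) (36 * b) (Rb b) (2 ^ b) hR al p z hz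

theorem rs_zero (hS : GoalSHN) (b W p : ℕ) (z : ℕ × ℕ) (hR : 1 ≤ Rb b)
    (hz : z.1 < Pb b ^ (4 * b + 2)) : rs b W 0 p z = z :=
  (shl_rs hS b W 0 p z hR hz).symm

/-- One read of a register. -/
def up (b W al p j : ℕ) (C : ℕ → ℕ × ℕ) : ℕ → ℕ × ℕ :=
  Function.update C j (rs b W al p (C j))

/-- The registers after the reads. -/
def aft (b W al be ga p y z : ℕ) (D : De) (C : ℕ → ℕ × ℕ) : ℕ → ℕ × ℕ :=
  up b W ga z (D.f + 1) (up b W be y D.f (up b W al p D.e C))

theorem up_valid {b W al p j : ℕ} {C : ℕ → ℕ × ℕ} (hR : 1 ≤ Rb b)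
    (hC : ∀ j, (C j).1 < Pb b ^ (4 * b + 2)) (i : ℕ) :
    (up b W al p j C i).1 < Pb b ^ (4 * b + 2) := by
  unfold up
  by_cases h : i = j
  · subst h
    rw [Function.update_self]
    exact shN_lt b W al p _ hR
  · rw [Function.update_of_ne h]
    exact hC i

theorem up_zero (hS : GoalSHN) {b W p j : ℕ} {C : ℕ → ℕ × ℕ} (hR : 1 ≤ Rb b)
    (hC : ∀ j, (C j).1 < Pb b ^ (4 * b + 2)) : up b W 0 p j C = C := by
  unfold up
  rw [rs_zero hS b W p _ hR (hC j), Function.update_eq_self]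

theorem up_ne {b W al p j i : ℕ} {C : ℕ → ℕ × ℕ} (h : i ≠ j) : up b W al p j C i = C i :=
  Function.update_of_ne h _ _

theorem aft_none (hS : GoalSHN) {b W G : ℕ} {D : De} {C : ℕ → ℕ × ℕ} (hR : 1 ≤ Rb b)
    (hC : ∀ j, (C j).1 < Pb b ^ (4 * b + 2)) (hk : D.k < 3) :
    aft b W (alK D.k) (beK D.k D.m) (gaK D.k D.m) (G / 2 ^ (2 * b))
      (G / 2 ^ b % 2 ^ b) (G % 2 ^ b) D C = C := by
  have h0 : rdK D.k = 0 := by
    unfold rdK le01
    rw [if_neg (by omega)]
  unfold aft alK beK gaK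
  rw [h0, Nat.zero_mul, Nat.zero_mul, up_zero hS hR hC, up_zero hS hR hC, up_zero hS hR hC]

theorem aft_rd (hS : GoalSHN) {b W G : ℕ} {D : De} {C : ℕ → ℕ × ℕ} (hR : 1 ≤ Rb b)
    (hC : ∀ j, (C j).1 < Pb b ^ (4 * b + 2)) (hk : 3 ≤ D.k) (hm : D.m ≤ 2)
    (hef : 1 ≤ D.m → D.e ≠ D.f ∧ D.e ≠ D.f + 1) :
    aft b W (alK D.k) (beK D.k D.m) (gaK D.k D.m) (G / 2 ^ (2 * b))
      (G / 2 ^ b % 2 ^ b) (G % 2 ^ b) D C = rd (gadC b W) D.m D.e D.f G C := by
  have h0 : rdK D.k = 1 := by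
    unfold rdK le01
    rw [if_pos hk]
  have hK : (gadC b W).K = 2 ^ b := rfl
  have hp : (2 ^ b) ^ 2 = 2 ^ (2 * b) := by rw [← pow_mul, Nat.mul_comm]
  have hsh : ∀ p z, (gadC b W).sh p z = rs b W 1 p z := fun _ _ => rfl
  have hC1 : ∀ i, (up b W 1 (G / 2 ^ (2 * b)) D.e C i).1 < Pb b ^ (4 * b + 2) :=
    up_valid hR hC
  unfold aft alK beK gaK rd gA gY gZ
  rw [h0, hK, hp]
  rcases (by omega : D.m = 0 ∨ D.m = 1 ∨ D.m = 2) with h | h | h
  · rw [h]
    simp only [ifz, if_true, Nat.mul_zero]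
    rw [up_zero hS hR hC1, up_zero hS hR hC1]
    rfl
  · obtain ⟨h1, h2⟩ := hef (by omega)
    rw [h]
    simp only [ifz, one_ne_zero, if_false, Nat.sub_self, if_true, Nat.mul_zero, Nat.mul_one]
    rw [up_zero hS hR (up_valid hR hC1)]
    unfold up
    rw [Function.update_of_ne h1.symm]
    rfl
  · obtain ⟨h1, h2⟩ := hef (by omega)
    rw [h]
    simp only [ifz]
    norm_num
    rw [shl_rs hS b W 5 _ _ hR (hC _), shl_rs hS b W 9 _ _ hR (hC _)]
    unfold up
    rw [Function.update_of_ne h1.symm, Function.update_of_ne (by omega : D.f + 1 ≠ D.f),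
      Function.update_of_ne h2.symm]
    rfl

section
variable (hCT : GoalCT) (hEC : GoalEC) (hSET : GoalSET) (hPB : GoalPB)
  {N q b c : ℕ} (hq : 1 ≤ q) (hqN : q ≤ N) (hb : 1 ≤ b) (hc : c ≤ b)
include hCT hEC hSET hPB hq hqN hb hc

theorem setF {X S j : ℕ} (hX : X < (2 ^ Eb b) ^ (3 * q + 4))
    (hS : S < (2 ^ Fb N q b) ^ (3 * q + 4)) (hj : j ≤ 3 * q + 3) (z : ℕ × ℕ)
    (hz1 : z.1 < Pb b ^ (4 * b + 2)) (hz2 : z.2 < 2 ^ Fb N q b) :
    toF N q b (setD (2 ^ Et N q b c) (Eb b) (3 * q + 4) X j z.1)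
      (setD (2 ^ Et N q b c) (Fb N q b) (3 * q + 4) S j z.2) =
      Function.update (toF N q b X S) j z ∧
    setD (2 ^ Et N q b c) (Eb b) (3 * q + 4) X j z.1 < (2 ^ Eb b) ^ (3 * q + 4) ∧
    setD (2 ^ Et N q b c) (Fb N q b) (3 * q + 4) S j z.2 < (2 ^ Fb N q b) ^ (3 * q + 4) := by
  obtain ⟨p1, p2, p3, p4, p5, p6, p7, -⟩ := hPB N q b c hq hqN hb hc
  obtain ⟨r1, r2, -⟩ := hSET hCT (2 ^ Et N q b c) (Eb b) (3 * q + 4) X j z.1 p4 p6 hX
    (by omega) (hz1.trans_le p2)
  obtain ⟨s1, s2, -⟩ := hSET hCT (2 ^ Et N q b c) (Fb N q b) (3 * q + 4) S j z.2 p5 p7 hS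
    (by omega) hz2
  refine ⟨?_, r1, s1⟩
  funext i
  unfold toF
  rw [r2 i, s2 i]
  by_cases hij : i = j
  · subst hij
    rw [if_pos rfl, if_pos rfl, Function.update_self]
  · rw [if_neg hij, if_neg hij, Function.update_of_ne hij]

theorem readF {X j : ℕ} (S : ℕ) (hX : X < (2 ^ Eb b) ^ (3 * q + 4)) (hj : j ≤ 3 * q + 3)
    (al p : ℕ) :
    toF N q b (setD (2 ^ Et N q b c) (Eb b) (3 * q + 4) X j
      (shC b (2 ^ Et N q b c) al p (getD (2 ^ Et N q b c) (Eb b) X j))) S =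
      up b (2 ^ Et N q b c) al p j (toF N q b X S) ∧
    setD (2 ^ Et N q b c) (Eb b) (3 * q + 4) X j
      (shC b (2 ^ Et N q b c) al p (getD (2 ^ Et N q b c) (Eb b) X j)) <
      (2 ^ Eb b) ^ (3 * q + 4) := by
  obtain ⟨p1, p2, p3, p4, p5, p6, p7, -, -, -, -, -, -, -, -, p16, -⟩ := hPB N q b c hq hqN hb hc
  obtain ⟨hsh, -⟩ := hEC hCT b (2 ^ Et N q b c) p1 p16
  have hg : getD (2 ^ Et N q b c) (Eb b) X j = dig (2 ^ Eb b) X j := by
    unfold getD
    rw [capPow_eq' p6]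
  rw [hsh, hg]
  obtain ⟨r1, r2, -⟩ := hSET hCT (2 ^ Et N q b c) (Eb b) (3 * q + 4) X j
    (shN (cC b (2 ^ Et N q b c)) (4 * b) (36 * b) (Rb b) al p (dig (2 ^ Eb b) X j)) p4 p6 hX
    (by omega) ((shN_lt b _ al p _ p1).trans_le p2)
  refine ⟨?_, r1⟩
  funext i
  unfold toF up
  rw [r2 i]
  by_cases hij : i = j
  · subst hij
    rw [if_pos rfl, Function.update_self]
    rfl
  · rw [if_neg hij, Function.update_of_ne hij]

theorem R3 {D : De} {G X : ℕ} (S : ℕ) (he : D.e ≤ 3 * q + 3) (hf : D.f + 1 ≤ 3 * q + 3)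
    (hX : X < (2 ^ Eb b) ^ (3 * q + 4)) :
    toF N q b (bigR3 q b (2 ^ Et N q b c) D G X) S =
      aft b (2 ^ Et N q b c) (alK D.k) (beK D.k D.m) (gaK D.k D.m) (G / 2 ^ (2 * b))
        (G / 2 ^ b % 2 ^ b) (G % 2 ^ b) D (toF N q b X S) ∧
    bigR3 q b (2 ^ Et N q b c) D G X < (2 ^ Eb b) ^ (3 * q + 4) := by
  obtain ⟨a1, a2⟩ := readF hCT hEC hSET hPB hq hqN hb hc S hX he (alK D.k) (G / 2 ^ (2 * b))
  obtain ⟨b1, b2⟩ := readF hCT hEC hSET hPB hq hqN hb hc S a2
    (by omega : D.f ≤ 3 * q + 3) (beK D.k D.m) (G / 2 ^ b % 2 ^ b)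
  obtain ⟨c1, c2⟩ := readF hCT hEC hSET hPB hq hqN hb hc S b2 hf (gaK D.k D.m) (G % 2 ^ b)
  refine ⟨?_, c2⟩
  rw [a1] at b1
  rw [b1] at c1
  exact c1

end

/-- The claim. -/
def Cl (tst : ℕ → ℕ) (t : ℕ → ℕ → ℕ → ℕ → ℕ → ℕ) (N q b c G w X S A : ℕ) (D : De) : Prop :=
  (bigT tst b c (2 ^ Et N q b c) D G w X A = 0 →
      exec (gadC b (2 ^ Et N q b c)) tst t c D G (toF N q b X S, A) = none) ∧
    (bigT tst b c (2 ^ Et N q b c) D G w X A ≠ 0 → ∃ C',
      exec (gadC b (2 ^ Et N q b c)) tst t c D G (toF N q b X S, A) =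
        some (C', bigA c (2 ^ Et N q b c) D w A) ∧
      ((∀ j ≤ 3 * q + 3, (C' j).1 < Pb b ^ (4 * b + 2) ∧ (C' j).2 < 2 ^ Fb N q b) →
        toF N q b (bigX N q b c (2 ^ Et N q b c) D G w X S A)
          (bigS N q b c (2 ^ Et N q b c) D w X S A) = C' ∧
        bigX N q b c (2 ^ Et N q b c) D G w X S A < (2 ^ Eb b) ^ (3 * q + 4) ∧
        bigS N q b c (2 ^ Et N q b c) D w X S A < (2 ^ Fb N q b) ^ (3 * q + 4)))

/-- An active step. -/
theorem act (hCT : GoalCT) (hEC : GoalEC) (hSET : GoalSET) (hPB : GoalPB)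
    {tst : ℕ → ℕ} {t : ℕ → ℕ → ℕ → ℕ → ℕ → ℕ} {N q b c G w X S A : ℕ} {D : De}
    (hq : 1 ≤ q) (hqN : q ≤ N) (hb : 1 ≤ b) (hc : c ≤ b)
    (he : D.e ≤ 3 * q + 3) (hf : D.f + 1 ≤ 3 * q + 3) (hi : D.i ≤ 3 * q + 3)
    (hX : X < (2 ^ Eb b) ^ (3 * q + 4)) (hS : S < (2 ^ Fb N q b) ^ (3 * q + 4))
    (hact : actK D.k = 1) (hgok : gokK b D.k D.m G = 1)
    (hA : bigA c (2 ^ Et N q b c) D w A = A)
    (hex : exec (gadC b (2 ^ Et N q b c)) tst t c D G (toF N q b X S, A) =
      (app (gadC b (2 ^ Et N q b c)) tst D.T (valK D.k c A w) (toF N q b X S D.i)).map fun z =>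
        (Function.update (aft b (2 ^ Et N q b c) (alK D.k) (beK D.k D.m) (gaK D.k D.m)
          (G / 2 ^ (2 * b)) (G / 2 ^ b % 2 ^ b) (G % 2 ^ b) D (toF N q b X S)) D.i z, A)) :
    Cl tst t N q b c G w X S A D := by
  obtain ⟨p1, -, -, -, -, p6, p7, -, -, -, -, -, -, -, -, p16, -⟩ := hPB N q b c hq hqN hb hc
  obtain ⟨-, happ⟩ := hEC hCT b (2 ^ Et N q b c) p1 p16
  have hg1 : getD (2 ^ Et N q b c) (Eb b) X D.i = (toF N q b X S D.i).1 := by
    unfold getD toF
    rw [capPow_eq' p6]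
  have hg2 : getD (2 ^ Et N q b c) (Fb N q b) S D.i = (toF N q b X S D.i).2 := by
    unfold getD toF
    rw [capPow_eq' p7]
  have hT : bigT tst b c (2 ^ Et N q b c) D G w X A =
      apT tst b (2 ^ Et N q b c) D.T (valK D.k c A w) (toF N q b X S D.i).1 := by
    unfold bigT
    rw [hgok, hact, hg1, Nat.one_mul]
    rfl
  rw [happ] at hex
  unfold Cl
  rw [hT, hA]
  refine ⟨fun h0 => ?_, fun h0 => ?_⟩
  · rw [hex, if_pos h0]
    rfl
  · rw [if_neg h0, Option.map_some] at hex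
    refine ⟨_, hex, fun hv => ?_⟩
    have hvi := hv D.i hi
    rw [Function.update_self] at hvi
    obtain ⟨a1, a2⟩ := R3 hCT hEC hSET hPB hq hqN hb hc (G := G) S he hf hX
    have hc1 := setF hCT hEC hSET hPB hq hqN hb hc a2 hS hi _ hvi.1 hvi.2
    rw [a1] at hc1
    have e1 : bigX N q b c (2 ^ Et N q b c) D G w X S A =
        setD (2 ^ Et N q b c) (Eb b) (3 * q + 4) (bigR3 q b (2 ^ Et N q b c) D G X) D.i
          (apX b (2 ^ Et N q b c) D.T (valK D.k c A w) (toF N q b X S D.i).1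
            (toF N q b X S D.i).2) := by
      unfold bigX
      rw [hact, hg1, hg2]
      rfl
    have e2 : bigS N q b c (2 ^ Et N q b c) D w X S A =
        setD (2 ^ Et N q b c) (Fb N q b) (3 * q + 4) S D.i
          (apS b (2 ^ Et N q b c) D.T (valK D.k c A w) (toF N q b X S D.i).1
            (toF N q b X S D.i).2) := by
      unfold bigS
      rw [hact, hg1, hg2]
      rfl
    rw [e1, e2]
    exact hc1

/-- A step which does not apply a transformation. -/
theorem inact (hCT : GoalCT) (hEC : GoalEC) (hSET : GoalSET) (hPB : GoalPB)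
    {tst : ℕ → ℕ} {t : ℕ → ℕ → ℕ → ℕ → ℕ → ℕ} {N q b c G w X S A : ℕ} {D : De}
    (hq : 1 ≤ q) (hqN : q ≤ N) (hb : 1 ≤ b) (hc : c ≤ b)
    (he : D.e ≤ 3 * q + 3) (hf : D.f + 1 ≤ 3 * q + 3)
    (hX : X < (2 ^ Eb b) ^ (3 * q + 4)) (hS : S < (2 ^ Fb N q b) ^ (3 * q + 4))
    (hact : actK D.k = 0) (hT : bigT tst b c (2 ^ Et N q b c) D G w X A ≠ 0)
    (hex : exec (gadC b (2 ^ Et N q b c)) tst t c D G (toF N q b X S, A) =
      some (aft b (2 ^ Et N q b c) (alK D.k) (beK D.k D.m) (gaK D.k D.m)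
          (G / 2 ^ (2 * b)) (G / 2 ^ b % 2 ^ b) (G % 2 ^ b) D (toF N q b X S),
          bigA c (2 ^ Et N q b c) D w A)) :
    Cl tst t N q b c G w X S A D := by
  refine ⟨fun h0 => absurd h0 hT, fun _ => ⟨_, hex, fun _ => ?_⟩⟩
  obtain ⟨a1, a2⟩ := R3 hCT hEC hSET hPB hq hqN hb hc (G := G) S he hf hX
  have e1 : bigX N q b c (2 ^ Et N q b c) D G w X S A = bigR3 q b (2 ^ Et N q b c) D G X := by
    unfold bigX
    rw [hact]
    rfl
  have e2 : bigS N q b c (2 ^ Et N q b c) D w X S A = S := by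
    unfold bigS
    rw [hact]
    rfl
  rw [e1, e2]
  exact ⟨a1, a2, hS⟩

/-- **EE.** -/
theorem gEE : GoalEE := by
  intro hCT hSHN hEC hSET hPB tst t N q b c V G w X S A D hq hqN hb hc hWF hG hX hS hdig hw0 hw3
  change Cl tst t N q b c G w X S A D
  obtain ⟨p1, -, -, -, -, -, -, -, -, -, -, p12, -⟩ := hPB N q b c hq hqN hb hc
  have hC : ∀ j, (toF N q b X S j).1 < Pb b ^ (4 * b + 2) := hdig
  have hcap : capPow 2 c (2 ^ Et N q b c) = 2 ^ c := capPow_eq' p12
  have hk := hWF.hk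
  have hm := hWF.hm
  have he := hWF.he
  have hf := hWF.hf
  have hK : (gadC b (2 ^ Et N q b c)).K = 2 ^ b := rfl
  have hp : (2 ^ b) ^ 2 = 2 ^ (2 * b) := by rw [← pow_mul, Nat.mul_comm]
  have hi : D.k ≤ 3 → D.i ≤ 3 * q + 3 := by
    intro h3
    rcases hWF.hi with h1 | h1 | h1
    · omega
    · omega
    · exact h1.2
  by_cases h3 : D.k < 3
  · have hr : rdK D.k = 0 := by
      unfold rdK le01
      rw [if_neg (by omega)]
    have hg : gokK b D.k D.m G = eq01 G 0 := by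
      unfold gokK
      rw [hr]
      rfl
    have haft := aft_none (W := 2 ^ Et N q b c) (G := G) (D := D) hSHN p1 hC h3
    have hA : bigA c (2 ^ Et N q b c) D w A = A := by
      unfold bigA eq01 ifz
      rw [if_neg (by omega : ¬ D.k = 4), if_neg (by omega : ¬ D.k = 5)]
      rfl
    by_cases hG0 : G = 0
    · have hg1 : gokK b D.k D.m G = 1 := by rw [hg, hG0]; rfl
      rcases (by omega : D.k = 0 ∨ D.k = 1 ∨ D.k = 2) with k0 | k0 | k0
      · have hv : valK D.k c A w = t 2 D.v (A % 2 ^ c) 0 0 := by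
          rw [← hw0 k0, k0]
          rfl
        refine act hCT hEC hSET hPB hq hqN hb hc he hf (hi (by omega)) hX hS
          (by rw [k0]; rfl) hg1 hA ?_
        rw [haft, hv]
        unfold exec
        rw [if_pos k0, if_pos hG0]
      · refine inact hCT hEC hSET hPB hq hqN hb hc he hf hX hS (by rw [k0]; rfl) ?_ ?_
        · unfold bigT
          rw [hg1, k0]
          simp [actK, ifz, eq01]
        · rw [haft, hA]
          unfold exec
          rw [if_neg (by omega), if_pos k0, if_pos hG0]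
      · have hv : valK D.k c A w = A % 2 ^ c := by
          rw [k0]
          rfl
        refine act hCT hEC hSET hPB hq hqN hb hc he hf (hi (by omega)) hX hS
          (by rw [k0]; rfl) hg1 hA ?_
        rw [haft, hv]
        unfold exec
        rw [if_neg (by omega), if_neg (by omega), if_pos k0, if_pos hG0]
    · have hT : bigT tst b c (2 ^ Et N q b c) D G w X A = 0 := by
        unfold bigT
        rw [hg]
        simp [eq01, hG0]
      refine ⟨fun _ => ?_, fun h => absurd hT h⟩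
      unfold exec
      rcases (by omega : D.k = 0 ∨ D.k = 1 ∨ D.k = 2) with k0 | k0 | k0
      · rw [if_pos k0, if_neg hG0]
      · rw [if_neg (by omega), if_pos k0, if_neg hG0]
      · rw [if_neg (by omega), if_neg (by omega), if_pos k0, if_neg hG0]
  · have h3' : 3 ≤ D.k := by omega
    have hr : rdK D.k = 1 := by
      unfold rdK le01
      rw [if_pos h3']
    have haft := aft_rd (W := 2 ^ Et N q b c) (G := G) (D := D) hSHN p1 hC h3' hm
      (hWF.hef h3')
    have hg : gokK b D.k D.m G = if nrm (gadC b (2 ^ Et N q b c)).K D.m G then 1 else 0 := by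
      unfold gokK
      rw [hr, hK]
      rcases (by omega : D.m = 0 ∨ D.m = 1 ∨ D.m = 2) with h | h | h
      · rw [h]
        simp [ifz, nrm, eq01, hp]
      · rw [h]
        simp [ifz, nrm, eq01]
      · rw [h]
        simp [ifz, nrm]
    have hw := hw3 h3'
    rw [← hK] at hw
    by_cases hn : nrm (gadC b (2 ^ Et N q b c)).K D.m G
    · rw [if_pos hn] at hg
      rcases (by omega : D.k = 3 ∨ D.k = 4 ∨ D.k = 5) with k0 | k0 | k0
      · have hv : valK D.k c A w = t D.m D.v (gA (gadC b (2 ^ Et N q b c)).K G)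
            (gY (gadC b (2 ^ Et N q b c)).K G) (gZ (gadC b (2 ^ Et N q b c)).K G) := by
          rw [← hw, k0]
          rfl
        have hA : bigA c (2 ^ Et N q b c) D w A = A := by
          unfold bigA
          rw [k0]
          rfl
        refine act hCT hEC hSET hPB hq hqN hb hc he hf (hi (by omega)) hX hS
          (by rw [k0]; rfl) hg hA ?_
        rw [haft, hv]
        unfold exec
        rw [if_neg (by omega), if_neg (by omega), if_neg (by omega), if_pos hn, if_pos k0]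
      · have hA : bigA c (2 ^ Et N q b c) D w A = A * 2 ^ c + w % 2 ^ c := by
          unfold bigA
          rw [k0, hcap]
          rfl
        refine inact hCT hEC hSET hPB hq hqN hb hc he hf hX hS (by rw [k0]; rfl) ?_ ?_
        · unfold bigT
          rw [hg, k0]
          simp [actK, ifz, eq01, le01]
        · rw [haft, hA, hw]
          unfold exec
          rw [if_neg (by omega), if_neg (by omega), if_neg (by omega), if_pos hn,
            if_neg (by omega), if_pos k0]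
      · by_cases htest : w % 2 ^ c = A % 2 ^ c
        · have hA : bigA c (2 ^ Et N q b c) D w A = A / 2 ^ c := by
            unfold bigA
            rw [k0]
            rfl
          refine inact hCT hEC hSET hPB hq hqN hb hc he hf hX hS (by rw [k0]; rfl) ?_ ?_
          · unfold bigT
            rw [hg, k0]
            simp [actK, ifz, eq01, le01, htest]
          · rw [haft, hA]
            unfold exec
            rw [if_neg (by omega), if_neg (by omega), if_neg (by omega), if_pos hn,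
              if_neg (by omega), if_neg (by omega), if_pos (by rw [← hw]; exact htest)]
        · have hT : bigT tst b c (2 ^ Et N q b c) D G w X A = 0 := by
            unfold bigT
            rw [hg, k0]
            simp [actK, ifz, eq01, le01, htest]
          refine ⟨fun _ => ?_, fun h => absurd hT h⟩
          unfold exec
          rw [if_neg (by omega), if_neg (by omega), if_neg (by omega), if_pos hn,
              if_neg (by omega), if_neg (by omega), if_neg (by rw [← hw]; exact htest)]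
    · rw [if_neg hn] at hg
      have hT : bigT tst b c (2 ^ Et N q b c) D G w X A = 0 := by
        unfold bigT
        rw [hg, Nat.zero_mul]
      refine ⟨fun _ => ?_, fun h => absurd hT h⟩
      unfold exec
      rw [if_neg (by omega), if_neg (by omega), if_neg (by omega), if_neg hn]

end Pool.Agent.Helper9.CTG
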